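import Pool.Agent.Lib.helper21.Jump
import Pool.Agent.H.MP_e12961_lc.A

set_option autoImplicit false

/-! Hausdorff distance of Turing degrees and domination. -/

namespace Pool.Agent.H.MP_9fb7a1_lc

open Filter MeasureTheory

def orc (X : ℕ → Bool) : ℕ →. ℕ := fun n => Part.some (X n).toNat

def Deg (A : ℕ → Bool) : Type := {C : ℕ → Bool // TuringEquivalent (orc C) (orc A)}

noncomputable def del (C D : ℕ → Bool) : ℝ :=
  limsup (fun n : ℕ => (((Finset.range n).filter fun k => C k ≠ D k).card : ℝ) / (n : ℝ)) atTop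

noncomputable def Hd (A B : ℕ → Bool) : ℝ :=
  max (⨆ C : Deg A, ⨅ D : Deg B, del C.1 D.1) (⨆ D : Deg B, ⨅ C : Deg A, del C.1 D.1)

noncomputable def coin : Measure (ℕ → Bool) :=
  Measure.infinitePi fun _ => (PMF.uniformOfFintype Bool).toMeasure

def Attractive (A : ℕ → Bool) : Prop := ∀ᵐ B ∂coin, Hd A B = 1 / 2

def AEDom (A : ℕ → Bool) : Prop := ∀ᵐ B ∂coin, ∀ f : ℕ → ℕ,
  TuringReducible (fun n => Part.some (f n)) (orc B) → ∃ g : ℕ → ℕ,
    TuringReducible (fun n => Part.some (g n)) (orc A) ∧ ∀ᶠ n in atTop, f n ≤ g n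

def CEDeg (A : ℕ → Bool) : Prop :=
  ∃ W : ℕ → Bool, REPred (fun n => W n = true) ∧ TuringEquivalent (orc W) (orc A)

open Pool.Agent.H.MP_fa2eca_lc Pool.Agent.Lib.helper21 Pool.Agent.Lib.helper21.PR
open Pool.Agent.H.MP_e12961_lc Finset

attribute [local irreducible] Primrec Computable

theorem coin_eq : coin = Fn.mu := by
  unfold coin Fn.mu
  congr 1
  funext _
  refine Measure.ext_of_singleton fun b => ?_
  rw [ProbabilityTheory.uniformOn_univ, PMF.toMeasure_apply_singleton _ _ (by simp)]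
  simp

variable {α : Type} [Primcodable α] {Y : ℕ → Bool}

@[fun_prop] theorem ci_att {e u j : α → ℕ} {Z : α → ℕ → Bool} (he : CI Y e)
    (hZ : CI Y fun z : α × ℕ => Z z.1 z.2) (hu : CI Y u) (hj : CI Y j) :
    CI Y fun a => Fn.att (e a) (Z a) (u a) (j a) := by
  have h1 : Computable fun z : (ℕ × ℕ × ℕ) × List Bool =>
      Fn.att z.1.1 (fun i => z.2.getD i false) z.1.2.1 z.1.2.2 :=
    Fn.att_comp (by fun_prop) (Primrec.to_comp (by fun_prop)) (by fun_prop) (by fun_prop)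
  exact (ci_comp (g := fun a => ((e a, u a, j a), pre (Z a) (u a))) (Computable.ci h1)
    (by fun_prop)).of_eq fun z => Fn.att_congr _ (fun i hi => by simp [pre, hi]) le_rfl _

@[fun_prop] theorem ci_svs {e u j : α → ℕ} {Z : α → ℕ → Bool} (he : CI Y e)
    (hZ : CI Y fun z : α × ℕ => Z z.1 z.2) (hu : CI Y u) (hj : CI Y j) :
    CI Y fun a => svs (e a) (Z a) (u a) (j a) := by
  unfold svs; fun_prop

theorem svs_congr {e s t j : ℕ} {X Z : ℕ → Bool} (h : ∀ i < s, Z i = X i) (hst : s ≤ t)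
    (h1 : ∃ u < s, Fn.att e X u j ≠ 0) : svs e Z t j = sv e X j := by
  obtain ⟨u, hu, h2⟩ := h1
  have h3 := Fn.att_congr e h hu.le j ▸ h2
  rw [svs_eq ⟨u, hu.trans_le hst, h3⟩, ← svs_eq ⟨u, hu, h3⟩, ← svs_eq ⟨u, hu, h2⟩]
  simp only [svs, decide_eq_decide]
  refine exists_congr fun u => and_congr_right fun hu => ?_
  rw [Fn.att_congr e h hu.le]
  exact and_congr_right fun _ => forall₂_congr fun v hv => by rw [Fn.att_congr e h (hv.trans hu).le]

theorem stage {e : ℕ} {X : ℕ → Bool} (h : ∀ j, ∃ u, Fn.att e X u j ≠ 0) (m : ℕ) :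
    ∃ s, ∀ j < m, ∃ u < s, Fn.att e X u j ≠ 0 := by
  choose u hu using h
  exact ⟨(range m).sup u + 1, fun j hj => ⟨u j, Nat.lt_succ_of_le (le_sup (mem_range.2 hj)), hu j⟩⟩

theorem block (b : ℕ → ℕ) (hb : Primrec b) (h0 : b 0 = 0) (hm : StrictMono b) :
    ∃ l : ℕ → ℕ, (∀ Y, CI Y l) ∧ ∀ n m, l n = m ↔ b m ≤ n ∧ n < b (m + 1) := by
  have h1 : ∀ n, ∃ m, n < b (m + 1) := fun n => ⟨n, hm.id_le (n + 1)⟩
  have h2 : ∀ n m, Nat.find (h1 n) = m ↔ b m ≤ n ∧ n < b (m + 1) := fun n m => by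
    rw [Nat.find_eq_iff, and_comm]
    refine and_congr_left fun _ => ⟨fun h => ?_, fun h k hk => (le_trans (hm.monotone hk) h).not_gt⟩
    cases m with
    | zero => omega
    | succ m => exact not_lt.1 (h m (by omega))
  exact ⟨_, fun Y => CI.mk (by fun_prop) fun n m => (h2 n m).symm, h2⟩

theorem far {X Y : ℕ → Bool} {k : ℕ} (hk : 0 < k)
    (h : ∀ R, ∃ p, ∀ n, p ≤ n → n < R * (p + 1) → n % k ≠ 0 → X n ≠ Y n) :
    1 - 2 / (k : ℝ) ≤
      limsup (fun m : ℕ => ((((range m).filter fun n => X n ≠ Y n).card : ℝ) / (m : ℝ))) atTop := by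
  refine le_limsup_of_frequently_le (frequently_atTop.2 fun a => ?_)
    (isBoundedUnder_of ⟨1, fun m => div_le_one_of_le₀ ?_ (by positivity)⟩)
  swap
  · exact_mod_cast (card_filter_le _ _).trans_eq (card_range m)
  obtain ⟨p, hp⟩ := h (a + k)
  have h0 : k * (p + 1) ≤ (a + k) * (p + 1) := Nat.mul_le_mul_right _ (by omega)
  refine ⟨(a + k) * (p + 1), by nlinarith, ?_⟩
  generalize (a + k) * (p + 1) = N at hp h0
  have h1 : ((range N).filter fun n => ¬ X n ≠ Y n).card ≤ p + (N / k + 1) := by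
    refine (card_le_card (t := range p ∪ (range (N / k + 1)).image (k * ·)) fun n hn => ?_).trans
      ((card_union_le _ _).trans (add_le_add (card_range _).le
        (card_image_le.trans (card_range _).le)))
    simp only [mem_filter, mem_range, mem_union, mem_image] at hn ⊢
    by_cases h2 : n < p
    · exact Or.inl h2
    · refine Or.inr ⟨n / k, Nat.lt_succ_of_le (Nat.div_le_div_right hn.1.le), ?_⟩
      have := Nat.div_add_mod n k
      have h3 : n % k = 0 := by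
        by_contra h3
        exact hn.2 (hp n (by omega) hn.1 h3)
      omega
  have h2 := card_filter_add_card_filter_not (s := range N) fun n => X n ≠ Y n
  rw [card_range] at h2
  have h3 := Nat.mul_div_le N k
  have h4 : 0 < N := lt_of_lt_of_le (by positivity) h0
  have h5 : k * N ≤ k * ((range N).filter fun n => X n ≠ Y n).card + 2 * N := by nlinarith
  have h6 : (k : ℝ) * N ≤ k * ((range N).filter fun n => X n ≠ Y n).card + 2 * N := by exact_mod_cast h5
  rw [le_div_iff₀ (by positivity), sub_mul, div_mul_eq_mul_div, sub_le_iff_le_add, ← sub_le_iff_le_add',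
    le_div_iff₀ (by positivity)]
  linarith

def bb (m : ℕ) : ℕ := Nat.rec 0 (fun i x => (i + 1) * (x + 1)) m

theorem esc {W B : ℕ → Bool} (hW : REPred fun n => W n = true) {f : ℕ → ℕ} (hf : CI B f)
    (h : ∀ g, CI W g → ∃ᶠ n in atTop, g n < f n) :
    ∃ D, CI B D ∧ CI D B ∧ ∀ C, CI W C → 3 / 4 ≤ del C D := by
  obtain ⟨N, h1, h2, h3, h4⟩ := re_bool hW
  have hb : Primrec bb := by unfold bb; fun_prop
  obtain ⟨l, h5, h6⟩ := block bb hb rfl (strictMono_nat_of_lt_succ fun n => by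
    show _ < (n + 1) * (bb n + 1); nlinarith)
  have hB := ci_self B
  have hl := h5 B
  let F : ℕ → ℕ := fun n => ∑ i ∈ range (n + 1), f i
  let D : ℕ → Bool := fun n => if n % 8 = 0 then B (n / 8) else
    !svs (l n).unpair.1 (fun i => N i (F (l n))) (F (l n)) n
  refine ⟨D, by unfold D F; fun_prop, (ci_comp (g := fun n => 8 * n) (ci_self D)
    (by fun_prop)).of_eq fun n => by simp [D], fun C hC => le_of_eq_of_le (by norm_num)
      (far (k := 8) (by norm_num) fun R => ?_)⟩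
  obtain ⟨e, k1, rfl⟩ := sv_spec hC.orc
  clear hC
  have hW := ci_self W
  obtain ⟨g, k2, k3⟩ := RI.choice (Y := W) (R := fun n t => ∃ s, s ≤ t ∧
    (∀ j < bb (Nat.pair e n + 1), ∃ u, u < s ∧ Fn.att e W u j ≠ 0) ∧ ∀ i < s, N i t = W i)
    (by fun_prop) fun n => by
      obtain ⟨s, hs⟩ := stage k1 (bb (Nat.pair e n + 1))
      choose! t ht using h4
      refine ⟨s + (range s).sup t, s, by omega, hs, fun i hi => Bool.eq_iff_iff.2 ⟨h2 _ _,
        fun c => h3 _ _ _ ((le_sup (mem_range.2 hi)).trans (Nat.le_add_left _ _)) (ht i c)⟩⟩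
  obtain ⟨n, k4, k5⟩ := ((h g k2).and_eventually (eventually_ge_atTop R)).exists
  obtain ⟨s, k6, k7, k8⟩ := k3 n
  have k9 := Nat.right_le_pair e n
  have k10 : g n ≤ F (Nat.pair e n) :=
    k4.le.trans (single_le_sum (fun _ _ => Nat.zero_le _) (mem_range.2 (by omega)))
  refine ⟨bb (Nat.pair e n), fun j a1 a2 a3 => ?_⟩
  have a4 : j < bb (Nat.pair e n + 1) := a2.trans_le (Nat.mul_le_mul_right _ (by omega))
  simp only [D, if_neg a3, (h6 _ _).2 ⟨a1, a4⟩, Nat.unpair_pair]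
  rw [svs_congr (X := W) (fun i hi => Bool.eq_iff_iff.2 ⟨h2 _ _, fun c => h3 _ _ _ k10
    (k8 i hi ▸ c)⟩) (k6.trans k10) (k7 j a4)]
  simp

theorem del_bd (C D : ℕ → Bool) (n : ℕ) :
    (((range n).filter fun k => C k ≠ D k).card : ℝ) / (n : ℝ) ≤ 1 :=
  div_le_one_of_le₀ (by exact_mod_cast (card_filter_le _ _).trans_eq (card_range n)) (by positivity)

theorem del_ge (C D : ℕ → Bool) : 0 ≤ del C D :=
  le_limsup_of_frequently_le (.of_forall fun _ => by positivity) (isBoundedUnder_of ⟨1, del_bd C D⟩)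

theorem del_le {C D : ℕ → Bool} {x : ℝ} (h : ∀ᶠ n : ℕ in atTop,
    (((range n).filter fun k => C k ≠ D k).card : ℝ) / (n : ℝ) ≤ x) : del C D ≤ x :=
  limsup_le_of_le (isCoboundedUnder_le_of_le _ (x := 0) fun _ => by positivity) h

instance (A : ℕ → Bool) : Nonempty (Deg A) := ⟨⟨A, .refl _⟩⟩

theorem dom_of {A : ℕ → Bool} (hA : CEDeg A) (h : Attractive A) : AEDom A := by
  obtain ⟨W, h1, h2⟩ := hA
  filter_upwards [h] with B hB f hf
  by_contra! c
  obtain ⟨D, k1, k2, k3⟩ := esc h1 (CI.of_red hf) fun g hg =>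
    (c g (hg.red.trans h2.1)).mono fun n hn => hn
  have := le_ciSup_of_le (f := fun D : Deg B => ⨅ C : Deg A, del C.1 D.1) ⟨1, by
    rintro _ ⟨D, rfl⟩
    exact ciInf_le_of_le ⟨0, by rintro _ ⟨C, rfl⟩; exact del_ge _ _⟩ ⟨A, .refl _⟩
      (del_le (.of_forall (del_bd _ _)))⟩ ⟨D, k1.orc, k2.orc⟩
    (le_ciInf fun C => k3 C.1 (CI.of_orc (C.2.1.trans h2.2)))
  have := (le_max_right _ _).trans_eq hB
  linarith

end Pool.Agent.H.MP_9fb7a1_lc
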