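import Pool.Agent.H.MP_9fb7a1_lc.B

set_option autoImplicit false

/-! Almost everywhere dominating sets are attractive. -/

namespace Pool.Agent.H.MP_9fb7a1_lc

open Filter MeasureTheory Pool.Agent.H.MP_fa2eca_lc Pool.Agent.Lib.helper21 ProbabilityTheory
open Pool.Agent.Lib.helper21.PR Finset Pool.Agent.H.MP_e12961_lc
open scoped ENNReal

attribute [local irreducible] Primrec Computable

def ind (S : ℕ → Bool) (j : ℕ) (Z : ℕ → Bool) : ℝ := if S j ≠ Z j then 1 else 0

theorem ind_indep (S : ℕ → Bool) : iIndepFun (ind S) Fn.mu := iIndepFun_infinitePi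
  (X := fun j b => if S j ≠ b then (1 : ℝ) else 0) fun _ => Measurable.of_discrete

theorem ind_meas (S : ℕ → Bool) (j : ℕ) : Measurable (ind S j) := (Measurable.of_discrete
  (f := fun b => if S j ≠ b then (1 : ℝ) else 0)).comp (measurable_pi_apply j)

theorem ind_bd (S : ℕ → Bool) (j : ℕ) : ∀ᵐ Z ∂Fn.mu, ind S j Z ∈ Set.Icc (0 : ℝ) 1 :=
  .of_forall fun Z => by unfold ind; split_ifs <;> simp

theorem ind_eq (S : ℕ → Bool) (j : ℕ) :
    ind S j = Set.indicator {Z | ∀ i ∈ ({j} : Finset ℕ), Z i = !S i} 1 := by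
  ext Z
  simp only [ind, Set.indicator_apply, mem_singleton, forall_eq, Set.mem_setOf_eq]
  cases S j <;> cases Z j <;> simp

theorem one_meas (S : ℕ → Bool) (j : ℕ) :
    MeasurableSet {Z : ℕ → Bool | ∀ i ∈ ({j} : Finset ℕ), Z i = !S i} := by
  simp only [mem_singleton, forall_eq]
  exact measurableSet_eq_fun (measurable_pi_apply j) measurable_const

theorem ind_mean (S : ℕ → Bool) (j : ℕ) : Fn.mu[ind S j] = 1 / 2 := by
  rw [ind_eq, integral_indicator_one (one_meas S j), Measure.real, Fn.mu_cyl _ fun i => !S i]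
  simp

theorem ind_id (S : ℕ → Bool) (j : ℕ) : IdentDistrib (ind S j) (ind S 0) Fn.mu Fn.mu := by
  have m : ∀ j, Measurable fun Z : ℕ → Bool => xor (S j) (Z j) := fun j =>
    (Measurable.of_discrete (f := xor (S j))).comp (measurable_pi_apply j)
  have h : ∀ j b, Fn.mu.map (fun Z => xor (S j) (Z j)) {b} = 2⁻¹ ^ card {j} := fun j b => by
    rw [Measure.map_apply (m j) (by simp), ← Fn.mu_cyl _ fun i => xor (S i) b]
    congr 1
    ext Z
    simp only [Set.mem_preimage, Set.mem_singleton_iff, mem_singleton, forall_eq, Set.mem_setOf_eq]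
    cases S j <;> cases Z j <;> cases b <;> simp
  have e : ∀ j, ind S j = (fun b : Bool => if b then (1 : ℝ) else 0) ∘ fun Z => xor (S j) (Z j) :=
    fun j => funext fun Z => by simp [ind]
  rw [e, e]
  exact IdentDistrib.comp ⟨(m j).aemeasurable, (m 0).aemeasurable,
    Measure.ext_of_singleton fun b => (h j b).trans (h 0 b).symm⟩ .of_discrete

theorem slln (C : ℕ → Bool) : ∀ᵐ B ∂Fn.mu, del C B = 1 / 2 := by
  filter_upwards [strong_law_ae_real (ind C) (.of_mem_Icc _ _ (ind_meas C 0).aemeasurable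
    (ind_bd C 0)) (fun i j h => (ind_indep C).indepFun h) (ind_id C)] with B hB
  rw [ind_mean] at hB
  simp only [ind, sum_boole] at hB
  exact hB.limsup_eq

theorem real_loc {s : ℕ} {S : (ℕ → Bool) → Prop} [DecidablePred S] (h : Fn.Loc s S) {k a : ℕ}
    (hk : 0 < k) : Fn.mu {Z | S Z} ≤ ENNReal.ofReal (a / k) ↔
      k * ((range (2 ^ s)).filter fun m => S (Fn.tb m)).card ≤ a * 2 ^ s := by
  rw [ENNReal.le_ofReal_iff_toReal_le (measure_ne_top _ _) (by positivity), Fn.mu_loc h]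
  simp only [ENNReal.toReal_mul, ENNReal.toReal_natCast, ENNReal.toReal_pow, ENNReal.toReal_inv,
    ENNReal.toReal_ofNat, inv_pow, ← div_eq_mul_inv]
  rw [div_le_div_iff₀ (by positivity) (by positivity), mul_comm]
  norm_cast

def bad (r n : ℕ) (Z S : ℕ → Bool) : Prop := (r + 2) * (3 * n * n + 3 * n) <
  2 * r * ((range ((n + 1) ^ 3)).filter fun j => n ^ 3 < j ∧ S j ≠ Z j).card

instance (r n : ℕ) (Z S : ℕ → Bool) : Decidable (bad r n Z S) := Nat.decLt _ _

theorem bad.congr {r n : ℕ} {Z S Z' S' : ℕ → Bool} (h : bad r n Z S)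
    (h1 : ∀ j < (n + 1) ^ 3, n ^ 3 < j → Z j = Z' j) (h2 : ∀ j < (n + 1) ^ 3, S j = S' j) :
    bad r n Z' S' := by
  unfold bad at *
  rwa [filter_congr fun j hj => and_congr_right fun c => by
    rw [← h1 j (mem_range.1 hj) c, ← h2 j (mem_range.1 hj)]]

theorem cheb {r n : ℕ} (hr : 0 < r) (hn : 0 < n) (S : ℕ → Bool) :
    Fn.mu {Z | bad r n Z S} ≤ ENNReal.ofReal ((r * r : ℕ) / (n * n : ℕ)) := by
  let I := (range ((n + 1) ^ 3)).filter fun j => n ^ 3 < j
  have hI : I.card = 3 * n * n + 3 * n := by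
    rw [show I = Ioo (n ^ 3) ((n + 1) ^ 3) by ext; simp [I, and_comm], Nat.card_Ioo]
    ring_nf; omega
  have hl : ∀ j, MemLp (ind S j) 2 Fn.mu := fun j =>
    memLp_of_bounded (ind_bd S j) (ind_meas S j).aestronglyMeasurable 2
  have hv : Var[∑ j ∈ I, ind S j; Fn.mu] ≤ I.card / 4 := by
    rw [IndepFun.variance_sum (fun j _ => hl j) fun i _ j _ h => (ind_indep S).indepFun h]
    refine (sum_le_card_nsmul _ _ _ fun j _ =>
      variance_le_sq_of_bounded (ind_bd S j) (ind_meas S j).aemeasurable).trans_eq ?_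
    simp; ring
  have hp : (n * n : ℝ) ≤ I.card := by rw [hI]; push_cast; nlinarith
  have hq : (0 : ℝ) < n * n := by positivity
  have hs : (0 : ℝ) < I.card := hq.trans_le hp
  have hc := meas_ge_le_variance_div_sq (memLp_finset_sum' I fun j _ => hl j)
    (c := I.card / r) (by positivity)
  refine (measure_mono fun Z hZ => ?_).trans (hc.trans (ENNReal.ofReal_le_ofReal ?_))
  · simp only [Set.mem_setOf_eq, Finset.sum_apply, bad, ← hI, ← filter_filter] at hZ ⊢
    rw [integral_finset_sum _ fun j _ => (hl j).integrable (by norm_num)]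
    simp only [ind_mean, sum_const, nsmul_eq_mul]
    simp only [ind, sum_boole]
    have : ((r + 2) * I.card : ℝ) < 2 * r * (I.filter fun j => S j ≠ Z j).card := by
      exact_mod_cast hZ
    rw [le_abs, div_le_iff₀ (by positivity)]; left; linarith
  · push_cast
    rw [div_pow, div_div_eq_mul_div, div_le_div_iff₀ (by positivity) hq]
    have : 0 ≤ (r : ℝ) ^ 2 := by positivity
    nlinarith [mul_le_mul hv hp hq.le (by positivity)]

theorem avg {r : ℕ} (hr : 0 < r) (n s : ℕ) (D : ℕ → ℕ → Bool) : ∃ z, n * n *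
    ((range (2 ^ s)).filter fun m => bad r n (Fn.tb z) (D m)).card ≤ r * r * 2 ^ s := by
  rcases n.eq_zero_or_pos with rfl | hn
  · exact ⟨0, by simp⟩
  have h1 := fun m => (real_loc (S := fun Z => bad r n Z (D m)) (s := (n + 1) ^ 3) (fun _ _ e h =>
    h.congr (fun j hj _ => e j hj) fun _ _ => rfl) (by positivity)).1 (cheb hr hn (D m))
  by_contra! h
  generalize (n + 1) ^ 3 = t at h1
  have h2 : ∑ z ∈ range (2 ^ t), ((range (2 ^ s)).filter fun m => bad r n (Fn.tb z) (D m)).card =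
      ∑ m ∈ range (2 ^ s), ((range (2 ^ t)).filter fun z => bad r n (Fn.tb z) (D m)).card := by
    simp only [card_filter]
    exact sum_comm
  have h3 := sum_le_sum fun m (_ : m ∈ range (2 ^ s)) => h1 m
  have h4 := sum_lt_sum_of_nonempty (s := range (2 ^ t)) (by simp) fun z _ => h z
  simp only [← mul_sum, sum_const, card_range, smul_eq_mul] at h3 h4
  rw [h2] at h4
  nlinarith

theorem dens {C D : ℕ → Bool} {r : ℕ} (hr : 0 < r) (h : ∀ᶠ n in atTop, ¬ bad r n C D) :
    del C D ≤ 1 / 2 + 3 / r := by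
  obtain ⟨l, -, h6⟩ := block (· ^ 3) (by fun_prop) rfl (Nat.pow_left_strictMono (by norm_num))
  obtain ⟨N, hN⟩ := eventually_atTop.1 (h.and (eventually_ge_atTop r))
  let c : ℕ → ℕ := fun m => ((range m).filter fun k => C k ≠ D k).card
  have h0 : ∀ a d, c (a + d) ≤ c a + d := fun a d => by
    induction d with
    | zero => rfl
    | succ d ih =>
      refine le_trans ?_ (Nat.succ_le_succ ih)
      simp only [c, ← add_assoc, range_add_one, filter_insert]
      split_ifs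
      · exact card_insert_le _ _
      · omega
  have h1 : ∀ n, N ≤ n → 2 * r * c (n ^ 3) ≤ 2 * r * N ^ 3 + (r + 4) * n ^ 3 := by
    refine Nat.le_induction ?_ fun n hn ih => ?_
    · have := h0 0 (N ^ 3)
      simp only [zero_add, show c 0 = 0 from rfl] at this
      nlinarith [Nat.zero_le ((r + 4) * N ^ 3)]
    · obtain ⟨h2, h3⟩ := hN n hn
      have h4 : c ((n + 1) ^ 3) ≤ c (n ^ 3 + 1) +
          ((range ((n + 1) ^ 3)).filter fun j => n ^ 3 < j ∧ D j ≠ C j).card :=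
        (card_le_card fun j hj => by
          simp only [mem_union, mem_filter, mem_range] at hj ⊢
          exact (lt_or_ge (n ^ 3) j).elim (fun a => .inr ⟨hj.1, a, hj.2.symm⟩)
            fun a => .inl ⟨by omega, hj.2⟩).trans (card_union_le _ _)
      have h5 := h0 (n ^ 3) 1
      rw [bad, not_lt] at h2
      nlinarith [Nat.mul_le_mul_left (2 * r) (h4.trans (Nat.add_le_add_right h5 _)),
        Nat.zero_le (n * n), Nat.zero_le (r * n)]
  refine del_le ((eventually_ge_atTop ((N + r * (N ^ 3 + 7) + 1) ^ 3)).mono fun m hm => ?_)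
  obtain ⟨h2, h3⟩ := (h6 m _).1 rfl
  generalize l m = n at h2 h3
  have h4 : N + r * (N ^ 3 + 7) + 1 ≤ n :=
    Nat.le_of_lt_succ (lt_of_pow_lt_pow_left₀ 3 (by omega) (hm.trans_lt h3))
  have h5 := h1 n (by omega)
  have h7 := h0 (n ^ 3) (m - n ^ 3)
  rw [Nat.add_sub_cancel' h2] at h7
  have h8 : m - n ^ 3 ≤ 7 * (n * n) := by
    have : 1 ≤ n := by omega
    have : (n + 1) ^ 3 ≤ n ^ 3 + 7 * (n * n) := by nlinarith
    omega
  have h9 : r * (N ^ 3 + 7 * (n * n)) ≤ n ^ 3 := by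
    have a : 1 ≤ n * n := Nat.mul_pos (by omega) (by omega)
    calc _ ≤ r * (N ^ 3 + 7) * (n * n) := by nlinarith [Nat.mul_le_mul_left (r * N ^ 3) a]
      _ ≤ n * (n * n) := Nat.mul_le_mul_right _ (by omega)
      _ = _ := by ring
  have h10 : 2 * r * c m ≤ (r + 6) * m := by
    nlinarith [Nat.mul_le_mul_left (2 * r) (h7.trans (Nat.add_le_add_left h8 _)),
      Nat.mul_le_mul_left (r + 6) h2]
  have h11 : (2 * r * c m : ℝ) ≤ (r + 6) * m := by exact_mod_cast h10
  have h12 : (0 : ℝ) < m := by exact_mod_cast lt_of_lt_of_le (by positivity) hm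
  rw [div_le_iff₀ h12, show (1 / 2 + 3 / r : ℝ) * m = (r + 6) * m / (2 * r) by field_simp; ring,
    le_div_iff₀ (by positivity)]
  linarith

theorem near {A : ℕ → Bool} (e : ℕ) {r : ℕ} (hr : 0 < r) {g : ℕ → ℕ} (hg : CI A g) :
    ∃ C, CI A C ∧ CI C A ∧ ∀ᵐ B ∂Fn.mu, (∀ᶠ n in atTop, ∀ j < (n + 1) ^ 3, ∃ u < g n,
      Fn.att e B u j ≠ 0) → del C (sv e B) ≤ 1 / 2 + 3 / r := by
  obtain ⟨l, h5, h6⟩ := block (· ^ 3) (by fun_prop) rfl (Nat.pow_left_strictMono (by norm_num))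
  have h1 : Primrec fun z : ℕ × ℕ => Fn.tb z.1 z.2 := Fn.tb_prim
  obtain ⟨z, h2, h3⟩ := RI.choice (Y := A) (R := fun n z => n * n * ((range (2 ^ g n)).filter
    fun m => bad r n (Fn.tb z) (svs e (Fn.tb m) (g n))).card ≤ r * r * 2 ^ g n)
    (by unfold bad; fun_prop) fun n => avg hr n _ _
  have hA := ci_self A
  have hl := h5 A
  let C : ℕ → Bool := fun j => if j = l j ^ 3 then A (l j) else Fn.tb (z (l j)) j
  have h4 : ∀ n, l (n ^ 3) = n := fun n => (h6 _ _).2 ⟨le_rfl, Nat.pow_lt_pow_left (by omega) (by omega)⟩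
  refine ⟨C, by unfold C; fun_prop, (ci_comp (g := fun n => n ^ 3) (ci_self C)
    (by fun_prop)).of_eq fun n => by simp [C, h4], ?_⟩
  have h7 : ∀ n, Fn.mu {B | bad r (n + 1) (Fn.tb (z (n + 1))) (svs e B (g (n + 1)))} ≤ _ :=
    fun n => (real_loc (fun B B' a h => h.congr (fun _ _ _ => rfl) fun j _ => ?_)
      (by positivity)).2 (h3 (n + 1))
  swap
  · simp only [svs, decide_eq_decide]
    refine exists_congr fun u => and_congr_right fun hu => ?_
    rw [Fn.att_congr e a hu.le]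
    exact and_congr_right fun _ => forall₂_congr fun v hv => by
      rw [Fn.att_congr e a (hv.trans hu).le]
  have h8 : Summable fun n : ℕ => ((r * r : ℕ) / ((n + 1) * (n + 1) : ℕ) : ℝ) := by
    have := (((summable_nat_add_iff 1).2 (Real.summable_nat_pow_inv.2 one_lt_two)).mul_left
      (r * r : ℝ))
    simpa [div_eq_mul_inv, sq] using this
  filter_upwards [ae_eventually_notMem (ne_top_of_le_ne_top h8.tsum_ofReal_ne_top
    (ENNReal.tsum_le_tsum h7))] with B hB h
  obtain ⟨N, hN⟩ := eventually_atTop.1 hB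
  refine dens hr ((h.and (eventually_ge_atTop (N + 1))).mono fun n ⟨a1, a2⟩ c => ?_)
  obtain ⟨n, rfl⟩ := Nat.exists_eq_add_of_le' (show 1 ≤ n by omega)
  refine hN n (by omega) (c.congr (fun j hj a => ?_) fun j hj => (svs_eq (a1 j hj)).symm)
  simp only [C, (h6 _ _).2 ⟨a.le, hj⟩, if_neg a.ne']

theorem attr_of {A : ℕ → Bool} (h : AEDom A) : Attractive A := by
  rw [AEDom, coin_eq] at h
  rw [Attractive, coin_eq]
  have h1 : ∀ᵐ B ∂Fn.mu, ∀ g ∈ {g : ℕ → ℕ | TuringReducible (fun n => Part.some (g n)) (orc A)},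
      ∀ e r : ℕ, ∃ C : Deg A, (∀ᶠ n in atTop, ∀ j < (n + 1) ^ 3, ∃ u < g n,
        Fn.att e B u j ≠ 0) → del C.1 (sv e B) ≤ 1 / 2 + 3 / (r + 1 : ℕ) := by
    refine (ae_ball_iff (cnt A)).2 fun g hg => ae_all_iff.2 fun e => ae_all_iff.2 fun r => ?_
    obtain ⟨C, h1, h2, h3⟩ := near e r.succ_pos (CI.of_red hg)
    exact h3.mono fun B hB => ⟨⟨C, h1.orc, h2.orc⟩, hB⟩
  filter_upwards [h, h1, ae_all_iff.2 fun e => slln (sv e A)] with B h2 h3 h4
  have h5 : ∀ C : Deg A, del C.1 B = 1 / 2 := fun C => let ⟨e, _, he⟩ := sv_spec C.2.1; he ▸ h4 e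
  have h6 : ∀ D : Deg B, ⨅ C : Deg A, del C.1 D.1 ≤ 1 / 2 := fun D => by
    obtain ⟨e, k1, k2⟩ := sv_spec D.2.1
    have hB := ci_self B
    obtain ⟨f, k3, k4⟩ := RI.choice (Y := B) (R := fun n s => ∀ j < (n + 1) ^ 3, ∃ u, u < s ∧
      Fn.att e B u j ≠ 0) (by fun_prop) fun n => stage k1 _
    obtain ⟨g, k5, k6⟩ := h2 f k3.red
    refine le_of_forall_pos_le_add fun ε hε => ?_
    obtain ⟨r, hr⟩ := exists_nat_one_div_lt (show 0 < ε / 3 by positivity)
    obtain ⟨C, hC⟩ := h3 g k5 e r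
    refine ciInf_le_of_le ⟨0, by rintro _ ⟨C, rfl⟩; exact del_ge _ _⟩ C ((k2 ▸ hC (k6.mono
      fun n hn j hj => let ⟨u, a, b⟩ := k4 n j hj; ⟨u, a.trans_le hn, b⟩)).trans ?_)
    push_cast
    rw [div_eq_mul_one_div 3]
    linarith
  refine le_antisymm (max_le (ciSup_le fun C => ciInf_le_of_le ⟨0, by
    rintro _ ⟨C, rfl⟩; exact del_ge _ _⟩ ⟨B, .refl _⟩ (h5 C).le) (ciSup_le h6))
    (le_max_of_le_right (le_ciSup_of_le ⟨1 / 2, by rintro _ ⟨D, rfl⟩; exact h6 D⟩ ⟨B, .refl _⟩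
      (le_ciInf fun C => (h5 C).ge)))

end Pool.Agent.H.MP_9fb7a1_lc
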