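import Pool.Agent.H.MP_9fb7a1_lc.A

set_option autoImplicit false

/-! Almost everywhere dominating sets are high. -/

namespace Pool.Agent.H.MP_9fb7a1_lc

open Filter MeasureTheory Pool.Agent.H.MP_fa2eca_lc Pool.Agent.Lib.helper21
open Pool.Agent.Lib.helper21.PR Finset
open scoped ENNReal

attribute [local irreducible] Primrec Computable

theorem cols : Fn.mu.map (fun B v i => B (Nat.pair v i)) =
    Measure.infinitePi fun _ : ℕ => Fn.mu := by
  have h1 := Measure.map_infinitePi_infinitePi_of_inj (f := fun z : ℕ × ℕ => Nat.pair z.1 z.2)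
    (P := fun _ => ProbabilityTheory.uniformOn (Set.univ : Set Bool)) Nat.pairEquiv.injective
  unfold Fn.mu
  rw [← Measure.infinitePi_map_curry, ← h1, Measure.map_map (by fun_prop) (by fun_prop)]
  rfl

theorem often (k : ℕ) {T : Set ℕ} (hT : T.Infinite) :
    ∀ᵐ B ∂Fn.mu, ∃ v ∈ T, ∀ i < k, B (Nat.pair v i) = false := by
  let E : Set (ℕ → Bool) := {Z | ∀ i ∈ range k, Z i = false}
  have hE : MeasurableSet E := (Fn.Loc.closed (s := k) (S := (· ∈ E)) fun Z Z' e h i hi =>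
    (e i (mem_range.1 hi)).symm.trans (h i hi)).measurableSet
  have h1 : Fn.mu Eᶜ < 1 := by
    rw [prob_compl_eq_one_sub hE, Fn.mu_cyl]
    exact ENNReal.sub_lt_self (by simp) (by simp) (by simp)
  refine le_zero_iff.1 (ge_of_tendsto' (ENNReal.tendsto_pow_atTop_nhds_zero_of_lt_one h1)
    fun n => ?_)
  obtain ⟨F, h2, rfl⟩ := hT.exists_subset_card_eq n
  rw [← prod_const, ← Measure.infinitePi_pi (fun _ : ℕ => Fn.mu) fun _ _ => hE.compl, ← cols,
    Measure.map_apply (by fun_prop) (.pi F.countable_toSet fun _ _ => hE.compl)]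
  exact measure_mono fun B h v hv c => h ⟨v, h2 hv, fun i hi => c i (mem_range.2 hi)⟩

theorem cnt (A : ℕ → Bool) :
    {g : ℕ → ℕ | TuringReducible (fun n => Part.some (g n)) (orc A)}.Countable :=
  ((Set.countable_range (Lib.helper22.ev (orc A))).preimage
    (f := fun (g : ℕ → ℕ) n => Part.some (g n)) fun _ _ h => funext fun n =>
      Part.some_injective (congrFun h n)).mono fun _ h => Lib.helper22.turingReducible_iff.1 h

theorem pick {U : Set (ℕ → Bool)} (h : Fn.mu U < 1) {p : (ℕ → Bool) → Prop}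
    (hp : ∀ᵐ B ∂Fn.mu, p B) : ∃ B ∉ U, p B := by
  by_contra! c
  exact h.not_ge (measure_univ.ge.trans (measure_mono_ae (hp.mono fun B h _ =>
    not_not.1 fun a => c B a h)))

theorem high0 {A : ℕ → Bool} (hA : AEDom A) {R : ℕ → ℕ → Bool}
    (hR : ∀ Y, CI Y fun z : ℕ × ℕ => R z.1 z.2)
    (hu : ∀ e v w, (∀ t, R (Nat.pair e v) t) → (∀ t, R (Nat.pair e w) t) → v = w) :
    CI (J A) fun e => cd (∃ v, ∀ t, R (Nat.pair e v) t) := by
  let E : ℕ → (ℕ → Bool) → Prop := fun n B => ∀ i < n.unpair.1 + 2, B (Nat.pair n i) = false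
  have h1 : Fn.mu {B | ∃ e v, (∀ t, R (Nat.pair e v) t) ∧ E (Nat.pair e v) B} < 1 := by
    simp only [Set.setOf_exists (ι := ℕ) (p := fun e B => ∃ v, _ ∧ E (Nat.pair e v) B)]
    refine (measure_iUnion_le _).trans_lt ((ENNReal.tsum_le_tsum (g := fun e => 2⁻¹ ^ (e + 2))
      fun e => ?_).trans_lt ?_)
    · by_cases c : ∃ v, ∀ t, R (Nat.pair e v) t
      · obtain ⟨v, hv⟩ := c
        have := Fn.mu_cyl ((range (e + 2)).map ⟨Nat.pair (Nat.pair e v), fun a b h => by
          simpa using h⟩) fun _ => false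
        rw [card_map, card_range] at this
        refine (measure_mono ?_).trans_eq this
        rintro B ⟨w, h1, h2⟩ i hi
        obtain ⟨i, hj, rfl⟩ := mem_map.1 hi
        exact hu e w v h1 hv ▸ h2 i (by simpa using hj)
      · exact (measure_mono (t := ∅) fun B h => c (h.imp fun _ h => h.1)).trans (by simp)
    · simp only [pow_add, ENNReal.tsum_mul_right, ENNReal.tsum_geometric,
        ENNReal.one_sub_inv_two, inv_inv]
      rw [← ENNReal.toReal_lt_toReal (by finiteness) (by finiteness)]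
      simp; norm_num
  have h2 : ∀ᵐ B ∂Fn.mu, ∀ g ∈ {g : ℕ → ℕ | TuringReducible (fun n => Part.some (g n)) (orc A)},
      ∀ e N, {v | ∀ t < g (Nat.pair e v) + 1, R (Nat.pair e v) t}.Infinite →
        ∃ v, N ≤ v ∧ (∀ t < g (Nat.pair e v) + 1, R (Nat.pair e v) t) ∧ E (Nat.pair e v) B := by
    refine (ae_ball_iff (cnt A)).2 fun g _ => ae_all_iff.2 fun e => ae_all_iff.2 fun N => ?_
    refine (eventually_imp_distrib_left).2 fun h => ?_
    filter_upwards [often (e + 2) ((h.diff (Set.finite_Iio N)).image (f := Nat.pair e)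
      fun a _ b _ h => by simpa using h)] with B hB
    obtain ⟨_, ⟨v, h3, rfl⟩, h5⟩ := hB
    exact ⟨v, not_lt.1 h3.2, h3.1, by simpa [E] using h5⟩
  rw [AEDom, coin_eq] at hA
  obtain ⟨B, k1, k2, k3⟩ := pick h1 (hA.and h2)
  have hB := ci_self B
  have r1 := hR B
  obtain ⟨f, k4, k5⟩ := RI.choice (Y := B) (R := fun n t => ¬ E n B ∨ ¬ R n t ∨
    ¬ n = Nat.pair n.unpair.1 n.unpair.2) (by unfold E; fun_prop) fun n => by
      by_contra! c
      exact k1 ⟨n.unpair.1, n.unpair.2, by simpa using fun t => (c t).2.1, by simpa using (c 0).1⟩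
  obtain ⟨g, k6, k7⟩ := k2 f k4.red
  obtain ⟨N, k7⟩ := eventually_atTop.1 k7
  have k8 : ∀ e, ∃ M, ∀ v, M ≤ v → ¬ ∀ t < g (Nat.pair e v) + 1, R (Nat.pair e v) t := fun e => by
    have : {v | ∀ t < g (Nat.pair e v) + 1, R (Nat.pair e v) t}.Finite := by
      by_contra c
      obtain ⟨v, a1, a2, a3⟩ := k3 g k6 e N c
      have := k7 _ (a1.trans (Nat.right_le_pair e v))
      simpa [a3, a2 _ (Nat.lt_succ_of_le this)] using k5 (Nat.pair e v)
    obtain ⟨M, hM⟩ := this.bddAbove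
    exact ⟨M + 1, fun v hv c => (hM c).not_gt hv⟩
  replace k6 := CI.of_red k6
  have r2 := hR A
  have r3 := hR (J A)
  have j1 := RI.jump (Y := A) (p := fun n => ∃ t, ¬ R n t) (RI.un (by fun_prop))
  have j2 := RI.jump (Y := A) (p := fun z : ℕ × ℕ => ∃ v, z.2 ≤ v ∧
    ∀ t < g (Nat.pair z.1 v) + 1, R (Nat.pair z.1 v) t) (RI.un (by fun_prop))
  refine ci_dec (q := fun e => ∃ M, ¬ (∃ v, M ≤ v ∧ ∀ t < g (Nat.pair e v) + 1,
    R (Nat.pair e v) t) ∧ ∀ v < M, ∃ t, ¬ R (Nat.pair e v) t) ((i_exists (R := fun e v =>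
      ¬ ∃ t, ¬ R (Nat.pair e v) t) (i_ci (ci_not (ci_comp (g := fun z : ℕ × ℕ => Nat.pair z.1 z.2)
        j1 (by fun_prop))))).of_eq fun e => by simp) (i_exists (i_and (i_ci (ci_not j2))
          (by fun_prop))) fun e => ⟨fun ⟨M, a1, a2⟩ ⟨v, hv⟩ => ?_, fun h => ?_⟩
  · exact (lt_or_ge v M).elim (fun c => (a2 v c).elim fun t ht => ht (hv t))
      fun c => a1 ⟨v, c, fun t _ => hv t⟩
  · obtain ⟨M, hM⟩ := k8 e
    exact ⟨M, fun ⟨v, a1, a2⟩ => hM v a1 a2, fun v _ => not_forall.1 fun c => h ⟨v, c⟩⟩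

theorem high1 {A : ℕ → Bool} (hA : AEDom A) {R : ℕ → ℕ → ℕ → Bool}
    (hR : ∀ Y, CI Y fun z : ℕ × ℕ × ℕ => R z.1 z.2.1 z.2.2) :
    CI (J A) fun e => cd (∃ v, ∀ t, R e v t) := by
  classical
  let ok : ℕ → ℕ → ℕ → Prop := fun e x s => ∀ y < x, ∃ t < s, ¬ R e y t
  have k1 : ∀ e x y s, ok e x s → (∀ t, R e y t) → x ≤ y := fun e x y s h1 h2 =>
    not_lt.1 fun c => (h1 y c).elim fun t ht => ht.2 (h2 t)
  refine (high0 hA (R := fun n t => decide (R n.unpair.1 n.unpair.2.unpair.1 t ∧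
    ok n.unpair.1 n.unpair.2.unpair.1 n.unpair.2.unpair.2 ∧ ∀ s < n.unpair.2.unpair.2,
      ¬ ok n.unpair.1 n.unpair.2.unpair.1 s)) (fun Y => by have := hR Y; unfold ok; fun_prop)
        fun e v w hv hw => ?_).of_eq fun e => congrArg cd (propext ⟨fun ⟨v, hv⟩ =>
          ⟨v.unpair.1, fun t => by simpa using (of_decide_eq_true (hv t)).1⟩, fun h => ?_⟩)
  · simp only [decide_eq_true_eq, Nat.unpair_pair] at hv hw
    have a1 := (k1 _ _ _ _ (hv 0).2.1 fun t => (hw t).1).antisymm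
      (k1 _ _ _ _ (hw 0).2.1 fun t => (hv t).1)
    rw [← v.pair_unpair, ← w.pair_unpair, a1, le_antisymm (not_lt.1 fun c => (hv 0).2.2 _ c
      (a1 ▸ (hw 0).2.1)) (not_lt.1 fun c => (hw 0).2.2 _ c (a1 ▸ (hv 0).2.1))]
  · have a1 : ∃ s, ok e (Nat.find h) s := by
      choose! t ht using fun y (hy : y < Nat.find h) => not_forall.1 (Nat.find_min h hy)
      exact ⟨(range (Nat.find h)).sup t + 1, fun y hy =>
        ⟨t y, Nat.lt_succ_of_le (le_sup (mem_range.2 hy)), ht y hy⟩⟩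
    exact ⟨Nat.pair (Nat.find h) (Nat.find a1), fun t => by
      simpa only [decide_eq_true_eq, Nat.unpair_pair] using
        ⟨Nat.find_spec h t, Nat.find_spec a1, fun s hs => Nat.find_min a1 hs⟩⟩

theorem high2 {A : ℕ → Bool} (hA : AEDom A) : CI (J A) (J (J fun _ => false)) := by
  obtain ⟨N, h1, h2, h4, h3⟩ := (J_ri (J fun _ => false)).norm
  obtain ⟨M, g1, g2, g3, g4⟩ := (J_ri fun _ => false).norm
  generalize J (fun _ => false) = K at *
  refine (high1 hA (R := fun e v t => decide (N (e, pre (Fn.tb v.unpair.1) v.unpair.2.unpair.1)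
    v.unpair.2.unpair.2 ∧ ∀ i < v.unpair.2.unpair.1, (Fn.tb v.unpair.1 i → ∃ n < v.unpair.2.unpair.2,
      M (i, pre (fun _ => false) n) v.unpair.2.unpair.2) ∧
      (M (i, pre (fun _ => false) t.unpair.1) t.unpair.2 → Fn.tb v.unpair.1 i))) fun Y => ?_).of_eq
        fun e => ?_
  · have : Primrec fun z : ℕ × ℕ => Fn.tb z.1 z.2 := Fn.tb_prim
    exact ci_prim (by unfold pre; fun_prop)
  · rw [Bool.eq_iff_iff, cd_true]
    simp only [decide_eq_true_eq]
    refine ⟨fun h => ?_, fun h => ?_⟩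
    · obtain ⟨v, hv⟩ := h
      have := (hv 0).1
      rw [ML.pre_congr (Y := K) fun i hi => Bool.eq_iff_iff.2 ⟨fun c => ?_, fun c => ?_⟩] at this
      · exact h2 _ _ _ this
      · exact (((hv 0).2 i hi).1 c).elim fun n hn => g2 _ _ _ hn.2
      · obtain ⟨n, t, h⟩ := g4 i c
        exact ((hv (Nat.pair n t)).2 i hi).2 (by simpa using h)
    · obtain ⟨n, t, h⟩ := h3 e h
      choose! k u hu using g4
      let s := t + (range n).sup k + (range n).sup u + 1
      refine ⟨Nat.pair (Fn.cd K n) (Nat.pair n s), fun t' => ?_⟩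
      simp only [Nat.unpair_pair, ML.pre_congr (Fn.tb_cd K n)]
      refine ⟨h4 _ _ _ (by omega) h, fun i hi => ?_⟩
      have a1 : k i ≤ (range n).sup k := le_sup (mem_range.2 hi)
      have a2 : u i ≤ (range n).sup u := le_sup (mem_range.2 hi)
      rw [Fn.tb_cd K n i hi]
      exact ⟨fun c => ⟨k i, by omega, g3 _ _ _ (by omega) (hu i c)⟩, g2 _ _ _⟩

theorem high {A : ℕ → Bool} (hA : CEDeg A) (h : Attractive A) :
    TuringEquivalent (orc (J A)) (orc (J (J fun _ => false))) := by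
  refine ⟨?_, (high2 (dom_of hA h)).orc⟩
  obtain ⟨W, h1, h2⟩ := hA
  exact (J_mono ((CI.of_orc h2.2).trans ((RI.jump (i_re (RE.mk h1)).un).of_eq fun a => by
    rw [Bool.eq_iff_iff, cd_true]))).orc

end Pool.Agent.H.MP_9fb7a1_lc
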